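import Pool.Agent.Y451.AM.Stm

set_option autoImplicit false

/-!
# AM-LIM: iteration, Borel–Cantelli and passage to the limit

Adapted from `Pool.Agent.Y383.FM.Lim`; the group is an arbitrary countable group and the
quasi-invariant measure has arbitrary summable positive weights, so the pointwise convergence of
the errors replaces the quantitative estimate used there.
-/

open MeasureTheory Filter
open scoped ENNReal

noncomputable section

namespace Pool.Agent.Y688.AM

open Pool.Agent.Y451.AM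

/-! ## the quasi-invariant measure -/

variable {Γ : Type} [Group Γ] [Countable Γ] {X : Type} [MeasurableSpace X]

/-- the quasi-invariant measure -/
def nu (a : Γ → X → X) (Wt : Γ → ℝ≥0∞) (μ : Measure X) : Measure X :=
  Measure.sum (fun g : Γ => Wt g • μ.map (a g))

omit [Countable Γ] in
theorem nu_apply {a : Γ → X → X} (ha : Act Γ X a) (Wt : Γ → ℝ≥0∞) (μ : Measure X) {E : Set X}
    (hE : MeasurableSet E) : nu a Wt μ E = ∑' g : Γ, Wt g * μ {x | a g x ∈ E} := by
  unfold nu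
  rw [Measure.sum_apply _ hE]
  refine tsum_congr (fun g => ?_)
  rw [Measure.smul_apply, smul_eq_mul, Measure.map_apply (ha.meas g) hE]
  rfl

omit [Countable Γ] in
theorem nu_finite {a : Γ → X → X} (ha : Act Γ X a) {Wt : Γ → ℝ≥0∞} (hW : ∑' g, Wt g ≠ ∞)
    (μ : Measure X) [IsProbabilityMeasure μ] : IsFiniteMeasure (nu a Wt μ) := by
  constructor
  rw [nu_apply ha Wt μ MeasurableSet.univ]
  simp only [Set.mem_univ, Set.setOf_true, measure_univ, mul_one]
  exact lt_top_iff_ne_top.2 hW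

omit [Countable Γ] in
theorem nu_null {a : Γ → X → X} (ha : Act Γ X a) {Wt : Γ → ℝ≥0∞} (hW : ∀ g, Wt g ≠ 0)
    (μ : Measure X) {E : Set X} (hE : MeasurableSet E) :
    nu a Wt μ E = 0 ↔ ∀ g, μ {x | a g x ∈ E} = 0 := by
  rw [nu_apply ha Wt μ hE, ENNReal.tsum_eq_zero]
  refine forall_congr' fun g => ?_
  rw [mul_eq_zero]
  exact or_iff_right (hW g)

omit [Countable Γ] in
theorem ac_nu {a : Γ → X → X} (ha : Act Γ X a) {Wt : Γ → ℝ≥0∞} (hW : ∀ g, Wt g ≠ 0)
    (μ : Measure X) : μ ≪ nu a Wt μ := by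
  refine Measure.AbsolutelyContinuous.mk (fun E hE h0 => ?_)
  have h := (nu_null ha hW μ hE).1 h0 1
  simpa [ha.one] using h

omit [Countable Γ] in
theorem qmp {a : Γ → X → X} (ha : Act Γ X a) {Wt : Γ → ℝ≥0∞} (hW : ∀ g, Wt g ≠ 0)
    (μ : Measure X) (u : Γ) :
    Measure.QuasiMeasurePreserving (a u) (nu a Wt μ) (nu a Wt μ) := by
  refine ⟨ha.meas u, ?_⟩
  refine Measure.AbsolutelyContinuous.mk (fun E hE h0 => ?_)
  rw [Measure.map_apply (ha.meas u) hE, nu_null ha hW μ (ha.meas u hE)]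
  intro g
  have h := (nu_null ha hW μ hE).1 h0 (u * g)
  have h2 : {x | a g x ∈ a u ⁻¹' E} = {x | a (u * g) x ∈ E} := by
    ext x
    simp only [Set.mem_preimage, Set.mem_setOf_eq, ha.mul]
  rw [h2]
  exact h

/-! ## the error function -/

theorem meas_sg {k : ℕ} {F : Om Γ → Fin k} (hF : Measurable F) (hP : S_PRD) :
    Measurable (sg F) := by
  refine measurable_pi_lambda _ (fun v => ?_)
  exact hF.comp (hP.2.1 Γ v).measurable

theorem meas_ev {k : ℕ} {t : Finset Γ} {F : Om Γ → Fin k} (hF : Measurable F) (hP : S_PRD)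
    (r : Rule Γ k t) : Measurable (fun b => ev r (sg F b)) := by
  unfold ev
  have h1 : Measurable (fun b : Om Γ => (fun v : {v : Γ // v ∈ t} => sg F b v.1)) := by
    refine measurable_pi_lambda _ (fun v => ?_)
    exact (measurable_pi_apply v.1).comp (meas_sg hF hP)
  exact (measurable_of_countable r).comp h1

variable {k : ℕ} {W : Finset Γ} {Pr : (Γ → Fin k) → Prop} {a : Γ → X → X}

omit [Countable Γ] in
theorem meas_err (S : Stage Γ k Pr X a) (F : Om Γ → Fin k) :
    Measurable (fun x => S.err F x) := by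
  have h : (fun x => S.err F x) = (fun p : Rule Γ k S.t × Fin k =>
      (PP Γ).real {b | ev p.1 (sg F b) ≠ p.2}) ∘ (fun x => (S.R x, S.ψ x)) := rfl
  rw [h]
  exact (measurable_of_countable _).comp (S.mR.prodMk S.mψ)

omit [Countable Γ] in
theorem err_nonneg (S : Stage Γ k Pr X a) (F : Om Γ → Fin k) (x : X) : 0 ≤ S.err F x :=
  measureReal_nonneg

omit [Countable Γ] in
theorem err_le_one (S : Stage Γ k Pr X a) (F : Om Γ → Fin k) (x : X) : S.err F x ≤ 1 :=
  measureReal_le_one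

omit [Countable Γ] in
theorem err_int (S : Stage Γ k Pr X a) (F : Om Γ → Fin k) (ν : Measure X) [IsFiniteMeasure ν] :
    Integrable (fun x => S.err F x) ν := by
  refine (integrable_const (1 : ℝ)).mono' (meas_err S F).aestronglyMeasurable
    (Eventually.of_forall (fun x => ?_))
  rw [Real.norm_eq_abs, abs_of_nonneg (err_nonneg S F x)]
  exact err_le_one S F x

omit [Countable Γ] in
theorem sh_sg (F : Om Γ → Fin k) (u : Γ) (b : Om Γ) : sh u (sg F b) = sg F (sh u b) := by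
  funext h
  unfold sg
  show F (sh (h * u) b) = F (sh h (sh u b))
  congr 1
  funext h'
  show b (h' * (h * u)) = b (h' * h * u)
  rw [mul_assoc]

theorem err_shift (hP : S_PRD) {F : Om Γ → Fin k} (hF : Measurable F) (S : Stage Γ k Pr X a)
    (x : X) (u : Γ) :
    (PP Γ).real {b | ev (S.R (a u x)) (sh u (sg F b)) ≠ S.ψ (a u x)} = S.err F (a u x) := by
  have hm : MeasurableSet {b : Om Γ | ev (S.R (a u x)) (sg F b) ≠ S.ψ (a u x)} := by
    have h1 := meas_ev hF hP (S.R (a u x))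
    exact (h1 (measurableSet_singleton (S.ψ (a u x)))).compl
  have h := (hP.2.1 Γ u).measureReal_preimage hm.nullMeasurableSet
  rw [Stage.err, ← h]
  congr 1
  ext b
  simp only [Set.mem_setOf_eq, Set.mem_preimage, sh_sg]

/-- the key pointwise estimate -/
theorem bad_le (hP : S_PRD) (hL : LocP W Pr) {F : Om Γ → Fin k} (hF : Measurable F)
    (hs : ∀ᵐ b ∂PP Γ, Sol Pr (sg F b)) (S : Stage Γ k Pr X a) (x : X)
    (hx : ¬ Pr (fun v => S.ψ (a v x))) : 1 ≤ ∑ u ∈ W, S.err F (a u x) := by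
  have h1 : ∀ᵐ b ∂PP Γ, b ∈ ⋃ u ∈ W,
      {b : Om Γ | ev (S.R (a u x)) (sh u (sg F b)) ≠ S.ψ (a u x)} := by
    filter_upwards [hs] with b hb
    by_contra hcon
    simp only [Set.mem_iUnion, Set.mem_setOf_eq, not_exists, not_not] at hcon
    have h2 := S.val x (sg F b) hb 1
    apply hx
    refine hL _ _ (fun v hv => ?_) h2
    simp only [sh, mul_one]
    exact hcon v hv
  have h3 : (PP Γ) (⋃ u ∈ W,
      {b : Om Γ | ev (S.R (a u x)) (sh u (sg F b)) ≠ S.ψ (a u x)}) = 1 := by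
    have h5 := measure_congr (eventuallyEq_univ.2 h1)
    rw [measure_univ] at h5
    exact h5
  have h4 : (PP Γ).real (⋃ u ∈ W,
      {b : Om Γ | ev (S.R (a u x)) (sh u (sg F b)) ≠ S.ψ (a u x)}) = 1 := by
    rw [Measure.real, h3, ENNReal.toReal_one]
  rw [← h4]
  refine (measureReal_biUnion_finset_le _ _).trans (le_of_eq ?_)
  exact Finset.sum_congr rfl (fun u _ => err_shift hP hF S x u)

/-! ## the sequence of stages -/

omit [Countable Γ] in
/-- the initial stage -/
def init (d : Fin k) (Pr : (Γ → Fin k) → Prop) (a : Γ → X → X) : Stage Γ k Pr X a where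
  t := {1}
  R := fun _ => fun r => r ⟨1, Finset.mem_singleton_self 1⟩
  ψ := fun _ => d
  mR := measurable_const
  mψ := measurable_const
  val := by
    intro x w hw
    have : (fun u => ev (Γ := Γ) (k := k) (t := {1})
        (fun r => r ⟨1, Finset.mem_singleton_self 1⟩) (sh u w)) = w := by
      funext u
      show w (1 * u) = w u
      rw [one_mul]
    rw [this]
    exact hw

/-- the sequence of stages with its estimates -/
theorem exists_seq (hS : S_STEP) (hA : Amen Γ) (hL : LocP W Pr) {F : Om Γ → Fin k}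
    (hF : Measurable F) (hs : ∀ᵐ b ∂PP Γ, Sol Pr (sg F b)) [StandardBorelSpace X]
    (ha : Act Γ X a) (ν : Measure X) [IsFiniteMeasure ν] :
    ∃ (S : ℕ → Stage Γ k Pr X a) (V θ : ℝ), 0 < V ∧ 0 < θ ∧ θ < 1 ∧
      (∀ j, ∫ x, (S j).err F x ∂ν ≤ θ ^ j * V) ∧
      ∀ j, ν.real {x | (S (j + 1)).ψ x ≠ (S j).ψ x} ≤ θ ^ j * (8 * V) := by
  obtain ⟨V, hV⟩ : ∃ V : ℝ, V = ν.real Set.univ + 1 := ⟨_, rfl⟩
  have hV0 : 0 < V := by
    have : 0 ≤ ν.real Set.univ := measureReal_nonneg
    linarith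
  obtain ⟨θ, hθ⟩ : ∃ θ : ℝ, θ = 15 / 16 := ⟨_, rfl⟩
  have hθ0 : 0 < θ := by rw [hθ]; norm_num
  have hθ1 : θ < 1 := by rw [hθ]; norm_num
  have hst := fun (S : Stage Γ k Pr X a) (δ : ℝ) (hδ : 0 < δ) =>
    hS Γ hA k W Pr hL F hF hs X a ha ν S δ hδ
  choose nx hnx using hst
  have hδ : ∀ j : ℕ, 0 < 1 / 16 * (θ ^ j * V) := fun j => by positivity
  let S : ℕ → Stage Γ k Pr X a := fun j => Nat.rec (init (F (fun _ => 0)) Pr a)
    (fun j T => nx T (1 / 16 * (θ ^ j * V)) (hδ j)) j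
  have hS1 : ∀ j, S (j + 1) = nx (S j) (1 / 16 * (θ ^ j * V)) (hδ j) := fun j => rfl
  have hstep : ∀ j, ∫ x, (S (j + 1)).err F x ∂ν +
      (1 / 8) * ν.real {x | (S (j + 1)).ψ x ≠ (S j).ψ x} ≤
      (7 / 8) * ∫ x, (S j).err F x ∂ν + 1 / 16 * (θ ^ j * V) := by
    intro j
    have := hnx (S j) (1 / 16 * (θ ^ j * V)) (hδ j)
    rw [← hS1 j] at this
    exact this
  have hE0 : ∀ j, 0 ≤ ∫ x, (S j).err F x ∂ν := fun j =>
    integral_nonneg (fun x => err_nonneg _ F x)
  have hE : ∀ j, ∫ x, (S j).err F x ∂ν ≤ θ ^ j * V := by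
    intro j
    induction j with
    | zero =>
      rw [pow_zero, one_mul]
      have h1 : ∫ x, (S 0).err F x ∂ν ≤ ∫ _x, (1 : ℝ) ∂ν :=
        integral_mono (err_int _ F ν) (integrable_const _) (fun x => err_le_one _ F x)
      rw [integral_const, smul_eq_mul, mul_one] at h1
      linarith
    | succ j ih =>
      have h1 := hstep j
      have h2 : 0 ≤ ν.real {x | (S (j + 1)).ψ x ≠ (S j).ψ x} := measureReal_nonneg
      have h4 : θ ^ (j + 1) * V = 15 / 16 * (θ ^ j * V) := by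
        rw [pow_succ, hθ]; ring
      rw [h4]
      linarith
  refine ⟨S, V, θ, hV0, hθ0, hθ1, hE, fun j => ?_⟩
  have h1 := hstep j
  have h2 := hE0 (j + 1)
  have h3 := hE j
  have h4 : 0 < θ ^ j * V := by positivity
  have h5 : θ ^ j * (8 * V) = 8 * (θ ^ j * V) := by ring
  rw [h5]
  linarith

omit [Countable Γ] in
/-- the errors converge to `0` almost everywhere -/
theorem err_tendsto (F : Om Γ → Fin k) (ν : Measure X) [IsFiniteMeasure ν]
    (S : ℕ → Stage Γ k Pr X a) {V θ : ℝ} (hθ0 : 0 < θ) (hθ1 : θ < 1)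
    (hE : ∀ j, ∫ x, (S j).err F x ∂ν ≤ θ ^ j * V) :
    ∀ᵐ x ∂ν, Tendsto (fun j => (S j).err F x) atTop (nhds 0) := by
  have hm : ∀ j, Measurable (fun x => ENNReal.ofReal ((S j).err F x)) := fun j =>
    (meas_err (S j) F).ennreal_ofReal
  have h1 : ∫⁻ x, ∑' j, ENNReal.ofReal ((S j).err F x) ∂ν ≠ ∞ := by
    rw [lintegral_tsum (fun j => (hm j).aemeasurable)]
    have h2 : Summable (fun j : ℕ => θ ^ j * V) :=
      (summable_geometric_of_lt_one hθ0.le hθ1).mul_right _
    refine ne_top_of_le_ne_top h2.tsum_ofReal_ne_top (ENNReal.tsum_le_tsum (fun j => ?_))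
    rw [← ofReal_integral_eq_lintegral_ofReal (err_int (S j) F ν)
      (Eventually.of_forall (fun x => err_nonneg (S j) F x))]
    exact ENNReal.ofReal_le_ofReal (hE j)
  have h3 := ae_lt_top (Measurable.ennreal_tsum hm) h1
  filter_upwards [h3] with x hx
  have h4 := ENNReal.tendsto_atTop_zero_of_tsum_ne_top hx.ne
  have h5 := (ENNReal.tendsto_toReal ENNReal.zero_ne_top).comp h4
  simpa [Function.comp_def, ENNReal.toReal_ofReal (err_nonneg _ F x)] using h5

/-! ## passage to the limit -/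

theorem lim (hP : S_PRD) : S_LIM := by
  intro hS Γ _ _ hA k W Pr hL F hF hs X _ _ a ha μ _
  obtain ⟨w, hw0, hw1⟩ := ENNReal.exists_pos_sum_of_countable one_ne_zero Γ
  let Wt : Γ → ℝ≥0∞ := fun g => (w g : ℝ≥0∞)
  have hW0 : ∀ g, Wt g ≠ 0 := fun g => ENNReal.coe_ne_zero.2 (hw0 g).ne'
  have hW1 : ∑' g, Wt g ≠ ∞ := (hw1.trans ENNReal.one_lt_top).ne
  haveI := nu_finite ha hW1 μ
  obtain ⟨S, V, θ, hV, hθ0, hθ1, hE, hD⟩ := exists_seq hS hA hL hF hs ha (nu a Wt μ)
  haveI : Nonempty (Fin k) := ⟨F (fun _ => 0)⟩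
  -- Borel–Cantelli
  have hsum : (∑' j, nu a Wt μ {x | (S (j + 1)).ψ x ≠ (S j).ψ x}) ≠ ∞ := by
    have h1 : Summable (fun j : ℕ => θ ^ j * (8 * V)) :=
      (summable_geometric_of_lt_one hθ0.le hθ1).mul_right _
    refine ne_top_of_le_ne_top h1.tsum_ofReal_ne_top (ENNReal.tsum_le_tsum (fun j => ?_))
    rw [← ofReal_measureReal]
    exact ENNReal.ofReal_le_ofReal (hD j)
  have hBC := ae_eventually_notMem hsum
  have hconst : ∀ᵐ x ∂(nu a Wt μ), ∃ c : Fin k, ∀ᶠ j in atTop, (S j).ψ x = c := by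
    filter_upwards [hBC] with x hx
    obtain ⟨J, hJ⟩ := eventually_atTop.1 hx
    refine ⟨(S J).ψ x, eventually_atTop.2 ⟨J, fun j hj => ?_⟩⟩
    induction j, hj using Nat.le_induction with
    | base => rfl
    | succ j hj ih =>
      have h1 := hJ j hj
      rw [← ih]
      by_contra hcon
      exact h1 hcon
  have hall : ∀ᵐ x ∂(nu a Wt μ), ∀ u : Γ, ∃ c : Fin k, ∀ᶠ j in atTop, (S j).ψ (a u x) = c :=
    ae_all_iff.2 (fun u => (qmp ha hW0 μ u).ae hconst)
  have herr : ∀ᵐ x ∂(nu a Wt μ), ∀ u : Γ, Tendsto (fun j => (S j).err F (a u x)) atTop (nhds 0) :=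
    ae_all_iff.2 (fun u => (qmp ha hW0 μ u).ae (err_tendsto F (nu a Wt μ) S hθ0 hθ1 hE))
  -- the limit
  obtain ⟨f, hf, hf2⟩ := exists_measurable_piecewise
    (t := fun c : Fin k => {x : X | ∀ᶠ j in atTop, (S j).ψ x = c})
    (fun c => by
      have h1 : ∀ j, MeasurableSet {x : X | (S j).ψ x = c} := fun j =>
        (S j).mψ (measurableSet_singleton c)
      have h2 : {x : X | ∀ᶠ j in atTop, (S j).ψ x = c} =
          ⋃ J : ℕ, ⋂ j ∈ Set.Ici J, {x : X | (S j).ψ x = c} := by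
        ext x
        simp [eventually_atTop]
      rw [h2]
      exact MeasurableSet.iUnion (fun J => MeasurableSet.biInter (Set.to_countable _)
        (fun j _ => h1 j)))
    (fun c => fun _ => c) (fun c => measurable_const)
    (fun c c' hcc => by
      intro x hx
      exfalso
      obtain ⟨j, h1, h2⟩ := (hx.1.and hx.2).exists
      exact hcc (h1.symm.trans h2))
  refine ⟨f, hf, ?_⟩
  refine (ac_nu ha hW0 μ).ae_le ?_
  filter_upwards [hall, herr] with x hx hx2
  have h1 : ∀ᶠ j in atTop, ∀ v ∈ W, (S j).ψ (a v x) = f (a v x) := by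
    rw [Finset.eventually_all]
    intro v _
    obtain ⟨c, hc⟩ := hx v
    have h2 : f (a v x) = c := hf2 c hc
    rw [h2]
    exact hc
  have h2 : Tendsto (fun j => ∑ u ∈ W, (S j).err F (a u x)) atTop (nhds 0) := by
    have h3 := tendsto_finsetSum (f := fun u j => (S j).err F (a u x)) (a := fun _ => (0 : ℝ)) W
      (fun u _ => hx2 u)
    simpa using h3
  have h3 : ∀ᶠ j in atTop, ∑ u ∈ W, (S j).err F (a u x) < 1 :=
    h2.eventually (gt_mem_nhds one_pos)
  obtain ⟨j, h4, h5⟩ := (h1.and h3).exists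
  have h6 : Pr (fun v => (S j).ψ (a v x)) := by
    by_contra hcon
    exact absurd (bad_le hP hL hF hs (S j) x hcon) (not_le.2 h5)
  exact hL _ _ (fun v hv => h4 v hv) h6

end Pool.Agent.Y688.AM

end
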